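import Pool.Agent.Helper16.SD.GoalsS

/-!
# Project SD, packet ST_AVG: the averaging inequality
-/

set_option autoImplicit false

namespace Pool.Agent.Helper70.SD.ST_AVG

open Module Pool.Agent.Helper16.SD

lemma rho_inj {E I Γ : Type} [Field E] [Group Γ] [MulAction Γ I] (m : Γ → I → Eˣ) (γ : Γ) :
    Function.Injective (rho m γ) := by
  intro a b h
  funext i
  have h1 := congrFun h (γ • i)
  simp only [rho, LinearMap.coe_mk, AddHom.coe_mk, inv_smul_smul] at h1
  exact mul_left_cancel₀ (m γ i).ne_zero h1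

/-- The group of permutations of `I` given by `Γ`. -/
def HG (Γ I : Type) [Group Γ] [MulAction Γ I] : Subgroup (Equiv.Perm I) :=
  (MulAction.toPermHom Γ I).range

lemma f_le {E I Γ : Type} [Field E] [Fintype I] [DecidableEq I] [Group Γ] [MulAction Γ I]
    (m : Γ → I → Eˣ) (V : Submodule E (I → E)) (hV : ∀ γ, ∀ v ∈ V, rho m γ v ∈ V)
    (A : Finset I) (π : Equiv.Perm I) (hπ : π ∈ HG Γ I) :
    finrank E (V ⊓ supp E A : Submodule E (I → E)) ≤
      finrank E (V ⊓ supp E (A.image π) : Submodule E (I → E)) := by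
  obtain ⟨γ, rfl⟩ := hπ
  rw [(Submodule.equivMapOfInjective (rho m γ) (rho_inj m γ)
    (V ⊓ supp E A : Submodule E (I → E))).finrank_eq]
  apply Submodule.finrank_mono
  rintro _ ⟨v, ⟨hv1, hv2⟩, rfl⟩
  refine ⟨hV γ v hv1, ?_⟩
  intro i hi
  have h1 : γ⁻¹ • i ∉ A := by
    intro h
    apply hi
    rw [Finset.mem_image]
    exact ⟨γ⁻¹ • i, h, by simp [MulAction.toPermHom_apply]⟩
  have h2 := hv2 (γ⁻¹ • i) h1
  simp only [rho, LinearMap.coe_mk, AddHom.coe_mk, h2, mul_zero]

lemma card_fib {I Γ : Type} [Fintype I] [DecidableEq I] [Group Γ] [MulAction Γ I]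
    (htr : ∀ i j : I, ∃ γ : Γ, γ • i = j) [Fintype (HG Γ I)] (i j : I) :
    Fintype.card I * (Finset.univ.filter (fun π : HG Γ I ↦ (π : Equiv.Perm I) i = j)).card =
      Fintype.card (HG Γ I) := by
  have h1 : ∀ k : I, (Finset.univ.filter (fun π : HG Γ I ↦ (π : Equiv.Perm I) i = k)).card =
      (Finset.univ.filter (fun π : HG Γ I ↦ (π : Equiv.Perm I) i = j)).card := by
    intro k
    obtain ⟨γ, hγ⟩ := htr k j
    let p0 : HG Γ I := ⟨MulAction.toPermHom Γ I γ, ⟨γ, rfl⟩⟩
    apply Finset.card_bij (fun π _ ↦ p0 * π)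
    · intro π hπ
      simp only [Finset.mem_filter, Finset.mem_univ, true_and] at hπ ⊢
      have : ((p0 * π : HG Γ I) : Equiv.Perm I) i = γ • ((π : Equiv.Perm I) i) := rfl
      rw [this, hπ, hγ]
    · intro a _ b _ h
      exact mul_left_cancel h
    · intro π hπ
      simp only [Finset.mem_filter, Finset.mem_univ, true_and] at hπ
      refine ⟨p0⁻¹ * π, ?_, by simp⟩
      simp only [Finset.mem_filter, Finset.mem_univ, true_and]
      have : ((p0⁻¹ * π : HG Γ I) : Equiv.Perm I) i = γ⁻¹ • ((π : Equiv.Perm I) i) := rfl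
      rw [this, hπ, ← hγ, inv_smul_smul]
  have h2 : Fintype.card (HG Γ I) =
      ∑ k : I, (Finset.univ.filter (fun π : HG Γ I ↦ (π : Equiv.Perm I) i = k)).card := by
    rw [← Finset.card_univ]
    exact Finset.card_eq_sum_card_fiberwise (f := fun π : HG Γ I ↦ (π : Equiv.Perm I) i)
      (t := Finset.univ) (fun _ _ ↦ Finset.mem_coe.2 (Finset.mem_univ _))
  rw [h2, Finset.sum_congr rfl (fun k _ ↦ h1 k), Finset.sum_const, Finset.card_univ, smul_eq_mul]

theorem t (hP : ST_PIV) : ST_AVG := by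
  intro E I Γ _ _ _ _ _ m _hm htr V hV A
  classical
  obtain ⟨P, hPc, hPle⟩ := hP E I V
  haveI : Finite (HG Γ I) := inferInstance
  haveI : Fintype (HG Γ I) := Fintype.ofFinite _
  have hpos : 0 < Fintype.card (HG Γ I) := Fintype.card_pos
  have key : ∀ π : HG Γ I, finrank E (V ⊓ supp E A : Submodule E (I → E)) ≤
      ∑ i ∈ A, ∑ j ∈ P, (if (π : Equiv.Perm I) i = j then 1 else 0) := by
    intro π
    refine (f_le m V hV A π π.2).trans ((hPle _).trans ?_)
    have h1 : (A.image (π : Equiv.Perm I) ∩ P).card =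
        (A.filter (fun i ↦ (π : Equiv.Perm I) i ∈ P)).card := by
      have : A.image (π : Equiv.Perm I) ∩ P =
          (A.filter (fun i ↦ (π : Equiv.Perm I) i ∈ P)).image (π : Equiv.Perm I) := by
        ext j
        simp only [Finset.mem_inter, Finset.mem_image, Finset.mem_filter]
        constructor
        · rintro ⟨⟨i, hi, rfl⟩, h⟩
          exact ⟨i, ⟨hi, h⟩, rfl⟩
        · rintro ⟨i, ⟨hi, h⟩, rfl⟩
          exact ⟨⟨i, hi, rfl⟩, h⟩
      rw [this, Finset.card_image_of_injective _ (Equiv.injective _)]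
    rw [h1, Finset.card_filter]
    apply le_of_eq
    apply Finset.sum_congr rfl
    intro i _
    rw [Finset.sum_ite_eq]
  have hsum : Fintype.card (HG Γ I) * finrank E (V ⊓ supp E A : Submodule E (I → E)) ≤
      ∑ i ∈ A, ∑ j ∈ P,
        (Finset.univ.filter (fun π : HG Γ I ↦ (π : Equiv.Perm I) i = j)).card := by
    have h1 : Fintype.card (HG Γ I) * finrank E (V ⊓ supp E A : Submodule E (I → E)) =
        ∑ _π : HG Γ I, finrank E (V ⊓ supp E A : Submodule E (I → E)) := by
      rw [Finset.sum_const, Finset.card_univ, smul_eq_mul]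
    rw [h1]
    refine (Finset.sum_le_sum (fun π _ ↦ key π)).trans ?_
    rw [Finset.sum_comm]
    apply Finset.sum_le_sum
    intro i _
    rw [Finset.sum_comm]
    apply Finset.sum_le_sum
    intro j _
    rw [Finset.card_filter]
  have h3 : Fintype.card I * (Fintype.card (HG Γ I) *
      finrank E (V ⊓ supp E A : Submodule E (I → E))) ≤
      A.card * (P.card * Fintype.card (HG Γ I)) := by
    refine (Nat.mul_le_mul_left _ hsum).trans (le_of_eq ?_)
    rw [Finset.mul_sum]
    have : ∀ i ∈ A, Fintype.card I * ∑ j ∈ P,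
        (Finset.univ.filter (fun π : HG Γ I ↦ (π : Equiv.Perm I) i = j)).card =
        P.card * Fintype.card (HG Γ I) := by
      intro i _
      rw [Finset.mul_sum, Finset.sum_congr rfl (fun j _ ↦ card_fib htr i j), Finset.sum_const,
        smul_eq_mul]
    rw [Finset.sum_congr rfl this, Finset.sum_const, smul_eq_mul]
  rw [← hPc]
  have h4 : Fintype.card (HG Γ I) * (Fintype.card I *
      finrank E (V ⊓ supp E A : Submodule E (I → E))) ≤
      Fintype.card (HG Γ I) * (A.card * P.card) := by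
    calc _ = Fintype.card I * (Fintype.card (HG Γ I) *
          finrank E (V ⊓ supp E A : Submodule E (I → E))) := by ring
      _ ≤ _ := h3
      _ = _ := by ring
  exact Nat.le_of_mul_le_mul_left h4 hpos

end Pool.Agent.Helper70.SD.ST_AVG
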