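import Pool.Agent.Helper38.SD.Goals
import Pool.Agent.Helper51.SigLeo.Bridge

/-!
# Project SD, packet A_EQV: the bijection between the embeddings in `ℂ` and in `ℂ_p`
-/

set_option autoImplicit false

namespace Pool.Agent.Helper70.SD

open NumberField Pool.Agent.Helper51.SigLeo
open Pool.Agent.Helper42.RD (TSet)

theorem a_eqv : Pool.Agent.Helper38.SD.A_EQV := by
  intro p _ K _ _ ιinf ιp
  have hb1 : Function.Bijective (fun σ : K →+* AlgebraicClosure K ↦ ιinf.comp σ) := by
    refine ⟨?_, fun φ ↦ exists_lift_embedding ιinf φ⟩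
    intro σ τ h
    ext x
    exact ιinf.injective (RingHom.congr_fun h x)
  have hb2 : Function.Bijective (fun σ : K →+* AlgebraicClosure K ↦ ιp.comp σ) := by
    refine ⟨?_, fun φ ↦ exists_lift_embedding ιp φ⟩
    intro σ τ h
    ext x
    exact ιp.injective (RingHom.congr_fun h x)
  refine ⟨(Equiv.ofBijective _ hb1).symm.trans (Equiv.ofBijective _ hb2), ?_⟩
  have key : ∀ σ : K →+* AlgebraicClosure K,
      ((Equiv.ofBijective _ hb1).symm.trans (Equiv.ofBijective _ hb2)) (ιinf.comp σ) =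
        ιp.comp σ := by
    intro σ
    rw [Equiv.trans_apply]
    have h1 : (Equiv.ofBijective _ hb1).symm (ιinf.comp σ) = σ :=
      (Equiv.ofBijective _ hb1).symm_apply_apply σ
    rw [h1]
    rfl
  intro S
  ext τ
  constructor
  · rintro ⟨σ, h, rfl⟩
    exact ⟨ιinf.comp σ, h, key σ⟩
  · rintro ⟨φ, hφ, rfl⟩
    obtain ⟨σ, rfl⟩ := hb1.2 φ
    exact ⟨σ, hφ, key σ⟩

end Pool.Agent.Helper70.SD
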