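import Pool.Agent.Helper16.SD.GoalsD

/-!
# Project SD, packet D_ONE: assembly of the bound for the exponent of the Kummer symbols
-/

set_option autoImplicit false

namespace Pool.Agent.Helper70.SD.D_ONE

open NumberField Module IsDedekindDomain TensorProduct
open Pool.Agent.Helper51.SigLeo Pool.Agent.Helper51.RP Pool.Agent.Helper51.REC
open Pool.Agent.Helper38.FD (Chr CutsOut LeopoldtFor)
open Pool.Agent.Helper38.FW (InDec)
open Pool.Agent.Helper38.TH (IsTower Hat)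
open Pool.Agent.Helper17.TH (ug exO tm)
open Pool.Agent.Helper16.SD

/-- An embedding of the algebraic closure in `ℂ_p`. -/
lemma exists_emb {p : ℕ} [Fact p.Prime] {K : Type} [Field K] (σ : K →+* ℂ_[p]) :
    Nonempty (AlgebraicClosure K →+* ℂ_[p]) := by
  let _ : Algebra K ℂ_[p] := σ.toAlgebra
  exact ⟨((IsAlgClosed.lift : AlgebraicClosure K →ₐ[K] ℂ_[p]) : AlgebraicClosure K →+* ℂ_[p])⟩

/-- The decomposition group. -/
def decG {p : ℕ} [Fact p.Prime] {K : Type} [Field K] (τ : AlgebraicClosure K →+* ℂ_[p]) :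
    Subgroup (AlgebraicClosure K ≃ₐ[K] AlgebraicClosure K) where
  carrier := {g | InDec τ g}
  mul_mem' := by
    intro a b ha hb x
    have h1 := ha (b x)
    have h2 := hb x
    exact h1.trans h2
  one_mem' := fun x ↦ rfl
  inv_mem' := by
    intro a ha x
    have h1 := ha (a⁻¹ x)
    have h2 : a (a⁻¹ x) = x := by
      rw [← AlgEquiv.mul_apply, mul_inv_cancel, AlgEquiv.one_apply]
    rw [h2] at h1
    exact h1.symm

/-- The coefficients. -/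
lemma coef_facts {p : ℕ} [Fact p.Prime] {K : Type} [Field K] [NumberField K]
    {Lg : IwasawaLog p ℂ_[p]}
    {om : (AlgebraicClosure K ≃ₐ[K] AlgebraicClosure K) →* ℤ_[p]ˣ}
    {χ ν : Chr K (AlgebraicClosure K) ℂ_[p]} {F : IntermediateField K (AlgebraicClosure K)}
    [Normal K F] {B : Set (K →+* ℂ_[p])} (hbase : Base Lg om χ ν F B)
    {O : Type} [CommRing O] [IsDomain O] [Algebra ℤ_[p] O] {j : O →+* ℂ_[p]}
    {c cn : (AlgebraicClosure K ≃ₐ[K] AlgebraicClosure K) → O} (hcoef : Coef χ ν O j c cn) :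
    (∀ g h, cn (g * h) = cn g * cn h) ∧ cn 1 = 1 ∧ (∀ g h, c (g * h) = c g * c h) ∧ c 1 = 1 ∧
      (∀ g, c g * cn g = algebraMap ℤ_[p] O (om g : ℤ_[p]ˣ)) ∧
      (∀ g, (∀ x ∈ F, g x = x) → cn g = 1) ∧ (∀ g, ν g ≠ 1 → cn g ≠ 1) := by
  refine ⟨?_, ?_, ?_, ?_, ?_, ?_, ?_⟩
  · intro g h
    apply hcoef.inj
    rw [map_mul, hcoef.cn, hcoef.cn, hcoef.cn, map_mul, Units.val_mul]
  · apply hcoef.inj
    rw [hcoef.cn, map_one, map_one, Units.val_one]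
  · intro g h
    apply hcoef.inj
    rw [map_mul, hcoef.c, hcoef.c, hcoef.c, map_mul, Units.val_mul]
  · apply hcoef.inj
    rw [hcoef.c, map_one, map_one, Units.val_one]
  · intro g
    apply hcoef.inj
    rw [map_mul, hcoef.c, hcoef.cn, hcoef.alg, hbase.mul]
    rfl
  · intro g hg
    apply hcoef.inj
    have h1 := (hbase.cutF g).1 hg
    have h2 := hbase.mul g
    rw [h1.1, h1.2, Units.val_one, Units.val_one, one_mul, map_one] at h2
    rw [hcoef.cn, map_one, h2]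
  · intro g hg h
    apply hg
    have h1 := hcoef.cn g
    rw [h, map_one] at h1
    exact Units.ext h1.symm

theorem t : Pool.Agent.Helper16.SD.D_ONE := by
  intro hBND hPSI hXQ hDES hFLD hPC hTEN hZPSI hRAM
  intro p _ hp2 K _ _ _ hsp Lg η om u hcyc χ ν F _ _ B hbase O _ _ _ _ _ j c cn hcoef E _ _ hE
  obtain ⟨b₁, hb₁⟩ := hBND p hp2 K hsp Lg η om u hcyc χ ν F B hbase O j c cn hcoef
  obtain ⟨cnm, cn1, cm, c1, ccn, cnF, cnne⟩ := coef_facts hbase hcoef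
  have iG : IsGalois K (AlgebraicClosure K) := inferInstance
  have hidx : F.fixingSubgroup.index ≠ 0 := by
    rw [← IntermediateField.finrank_eq_fixingSubgroup_index]
    haveI : FiniteDimensional K F := FiniteDimensional.right ℚ K F
    exact (Module.finrank_pos).ne'
  haveI iFI : F.fixingSubgroup.FiniteIndex := ⟨hidx⟩
  haveI iFN : F.fixingSubgroup.Normal :=
    (InfiniteGalois.normal_iff_isGalois F).2 inferInstance
  obtain ⟨σ₀, -⟩ := hbase.ne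
  obtain ⟨τ₀⟩ := exists_emb σ₀
  obtain ⟨a, v, hv, hav⟩ := Nat.exists_eq_pow_mul_and_not_dvd hidx p
    (Fact.out : p.Prime).ne_one
  refine ⟨b₁ + a, ?_⟩
  intro m k hkm z hz hcong
  obtain ⟨n₀, hn₀⟩ := hZPSI p K Lg (E m) Bᶜ ((hPC p K hsp).2 _) O j hcoef.inj hcoef.alg k
  obtain ⟨M, iM, iMG, hFM, hEM, hmu, hfix, hcomm, ⟨γ, hγF, hγ⟩, hgen⟩ :=
    hFLD p K η om u hcyc χ F (E m) hbase.cutF m (hE m) (max n₀ (m + 1)) (le_max_right _ _)
  obtain ⟨ζ, hζ⟩ : ∃ ζ : AlgebraicClosure K, IsPrimitiveRoot ζ (p ^ k) :=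
    HasEnoughRootsOfUnity.exists_primitiveRoot (AlgebraicClosure K) (p ^ k)
  have hkn : k ≤ max n₀ (m + 1) := hkm.trans (le_max_right _ _)
  have hζM : ζ ∈ M := by
    apply hmu
    obtain ⟨l, hl⟩ := Nat.exists_eq_add_of_le hkn
    rw [hl, pow_add, pow_mul, hζ.pow_eq_one, one_pow]
  obtain ⟨Ψ, hΨ⟩ := hPSI p K k ζ hζ (E m) M hEM hζM O
  refine ⟨max n₀ (m + 1), M, iM, iMG, ζ, Ψ, ⟨hkn, hFM, hEM, hmu, hfix, hζ, hΨ⟩, ?_⟩
  haveI iMN : M.fixingSubgroup.Normal :=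
    (InfiniteGalois.normal_iff_isGalois M).2 inferInstance
  have memF : ∀ g : AlgebraicClosure K ≃ₐ[K] AlgebraicClosure K,
      g ∈ F.fixingSubgroup ↔ ∀ x ∈ F, g x = x := fun g ↦
    IntermediateField.mem_fixingSubgroup_iff F g
  have memM : ∀ g : AlgebraicClosure K ≃ₐ[K] AlgebraicClosure K,
      g ∈ M.fixingSubgroup ↔ ∀ x ∈ M, g x = x := fun g ↦
    IntermediateField.mem_fixingSubgroup_iff M g
  have hNle : M.fixingSubgroup ≤ F.fixingSubgroup := by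
    intro g hg
    rw [memF]
    intro x hx
    exact (memM g).1 hg x (hFM hx)
  have hX := hXQ p O k
  have hconj : ∀ g h : AlgebraicClosure K ≃ₐ[K] AlgebraicClosure K, (∀ x ∈ M, h x = x) →
      ∀ x ∈ M, (g * h * g⁻¹ : AlgebraicClosure K ≃ₐ[K] AlgebraicClosure K) x = x := by
    intro g h hh
    rw [← memM]
    exact iMN.conj_mem h ((memM h).2 hh) g
  -- equivariance
  have heq : ∀ g h : AlgebraicClosure K ≃ₐ[K] AlgebraicClosure K, (∀ x ∈ M, h x = x) →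
      Ψ z (g * h * g⁻¹) = cn g • Ψ z h := by
    intro g h hh
    have h1 := hΨ.act g z h hh
    obtain ⟨y, hy⟩ := hcong g
    have h2 : exO O (ug (E m) g) z =
        (c g * algebraMap ℤ_[p] O (u g : ℤ_[p]ˣ)) • z + p ^ k • y := by
      rw [← hy]
      abel
    rw [h2, map_add, map_nsmul, Pi.add_apply, Pi.smul_apply, hX.1, add_zero,
      hΨ.smul _ _ _ (hconj g h hh)] at h1
    have h3 : algebraMap ℤ_[p] O (cyc p g : ℤ_[p]ˣ) =
        (c g * algebraMap ℤ_[p] O (u g : ℤ_[p]ˣ)) * cn g := by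
      rw [hcyc.mul g, Units.val_mul, map_mul, ← ccn g]
      ring
    rw [h3, mul_smul] at h1
    have h4 : c g⁻¹ * algebraMap ℤ_[p] O (((u g)⁻¹ : ℤ_[p]ˣ) : ℤ_[p]) *
        (c g * algebraMap ℤ_[p] O (u g : ℤ_[p]ˣ)) = 1 := by
      have h5 : c g⁻¹ * c g = 1 := by
        rw [← cm, inv_mul_cancel, c1]
      have h6 : algebraMap ℤ_[p] O (((u g)⁻¹ : ℤ_[p]ˣ) : ℤ_[p]) *
          algebraMap ℤ_[p] O (u g : ℤ_[p]ˣ) = 1 := by
        rw [← map_mul, Units.inv_mul, map_one]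
      calc _ = (c g⁻¹ * c g) * (algebraMap ℤ_[p] O (((u g)⁻¹ : ℤ_[p]ˣ) : ℤ_[p]) *
          algebraMap ℤ_[p] O (u g : ℤ_[p]ˣ)) := by ring
        _ = 1 := by rw [h5, h6, one_mul]
    have h7 := congrArg (fun x ↦ (c g⁻¹ * algebraMap ℤ_[p] O (((u g)⁻¹ : ℤ_[p]ˣ) : ℤ_[p])) • x) h1
    simp only [smul_smul] at h7
    rw [h4, one_smul, ← mul_assoc, h4, one_mul] at h7
    exact h7
  -- descent
  obtain ⟨Φ, hΦ1, hΦ2, hΦ3, hΦ4⟩ := hDES (AlgebraicClosure K ≃ₐ[K] AlgebraicClosure K)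
    F.fixingSubgroup M.fixingSubgroup hNle
    (fun g h ↦ (memM _).2 (hcomm g h))
    ⟨γ, (memF γ).2 hγF, fun a ha ↦ by
      obtain ⟨i, hi⟩ := hγ a ((memF a).1 ha)
      exact ⟨i, (memM _).2 hi⟩⟩ O (O ⧸ Ideal.span {(p : O) ^ k}) cn cnm cn1
    (fun a ha ↦ cnF a ((memF a).1 ha))
    (by
      obtain ⟨g, -, hg⟩ := hbase.dec' τ₀
      exact ⟨g, cnne g hg⟩) (Ψ z)
    (fun m hm n hn ↦ hΨ.mul z m n ((memM m).1 hm) ((memM n).1 hn))
    (fun g n hn ↦ heq g n ((memM n).1 hn))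
  -- the field R
  obtain ⟨e, y, hzy⟩ := (hTEN p O (Free.ChooseBasisIndex ℤ_[p] O) (Free.chooseBasis ℤ_[p] O)
    (Additive (𝓞 (E m))ˣ) k).1 z
  obtain ⟨R, iR, iRG, hMR, hkum, hunr⟩ := hRAM p K F (E m) M hFM hEM _ hmu hgen k ζ hζ hζM
    (Free.ChooseBasisIndex ℤ_[p] O) (fun i ↦ (e i).toMul)
  have hΦR : ∀ g : AlgebraicClosure K ≃ₐ[K] AlgebraicClosure K, (∀ x ∈ R, g x = x) →
      Φ g = 0 := by
    intro g hg
    have hgM : ∀ x ∈ M, g x = x := fun x hx ↦ hg x (hMR hx)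
    rw [hΦ3 g ((memM g).2 hgM)]
    have h1 : Ψ (∑ i, (Free.chooseBasis ℤ_[p] O) i ⊗ₜ Additive.ofMul ((e i).toMul)) g = 0 :=
      (hΨ.ker _ (Free.chooseBasis ℤ_[p] O) (fun i ↦ (e i).toMul) g hgM).2 (fun i ↦ hkum g hg i)
    simp only [ofMul_toMul] at h1
    rw [hzy, map_add, map_nsmul, Pi.add_apply, Pi.smul_apply, hX.1, add_zero, h1, smul_zero]
  have hfin := hb₁ k (O ⧸ Ideal.span {(p : O) ^ k}) hX.1 hX.2 Φ R (hFM.trans hMR)
    (fun g h hg hh ↦ hΦ1 g ((memF g).2 hg) h ((memF h).2 hh))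
    (fun g h hh ↦ hΦ2 g h ((memF h).2 hh)) hΦR hunr
    (by
      intro τ hτ g hg hgd
      apply hΦ4 (decG τ) _ _ g hgd ((memF g).2 hg)
      · intro n hn hnM
        exact hn₀ (max n₀ (m + 1)) (le_max_left _ _) ζ hζ M hEM hζM hmu Ψ hΨ z hz τ hτ n
          ((memM n).1 hnM) hn
      · obtain ⟨g, hg1, hg2⟩ := hbase.dec' τ
        exact ⟨g, hg1, cnne g hg2⟩)
  intro h hh
  have h1 := hfin h (fun x hx ↦ hh x (hFM hx))
  rw [hΦ3 h ((memM h).2 hh)] at h1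
  have h2 : v • (p ^ (b₁ + a) • Ψ z h) = 0 := by
    rw [← mul_smul]
    rw [← mul_smul, hav] at h1
    have : v * p ^ (b₁ + a) = p ^ b₁ * (p ^ a * v) := by ring
    rw [this, h1]
  have h3 : p ^ k • (p ^ (b₁ + a) • Ψ z h) = 0 := hX.1 _
  have hcop : Nat.Coprime v (p ^ k) := by
    apply Nat.Coprime.pow_right
    rw [Nat.coprime_comm]
    exact ((Fact.out : p.Prime).coprime_iff_not_dvd).2 hv
  have h4 : addOrderOf (p ^ (b₁ + a) • Ψ z h) ∣ Nat.gcd v (p ^ k) :=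
    Nat.dvd_gcd (addOrderOf_dvd_of_nsmul_eq_zero h2) (addOrderOf_dvd_of_nsmul_eq_zero h3)
  rw [hcop] at h4
  exact AddMonoid.addOrderOf_eq_one_iff.1 (Nat.dvd_one.1 h4)

end Pool.Agent.Helper70.SD.D_ONE
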